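import Pool.Agent.Helper15_OCG.State

/-!
# MP_64dd91_co: the answer to an attack
-/

set_option autoImplicit false

namespace Pool.Agent.Helper15_OCG

open Finset Pool.Agent.Helper51_OCG

variable {n : ℕ}

section

variable (P : Position n) (B : Finset (Fin n)) (u v : Fin n)

/-- The union of the two sets of predecessors. -/
def Ds : Finset (Fin n) := Dn P u ∪ Dn P v

/-- The vertices outside `B` with more predecessors. -/
def Ys : Finset (Fin n) := univ.filter fun y => y ∉ B ∧ Ds P u v ⊂ Dn P y

/-- The new position. -/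
def cut : Position n :=
  P ∪ (({u} ×ˢ Ys P B u v) ∪ (({u} ×ˢ B) ∪ ((Ds P u v ×ˢ {v}) ∪ {(u, v)})))

end

section

variable {P : Position n} {A B : Finset (Fin n)} {kU kD : ℕ} {u v : Fin n}

theorem mem_cut {x y : Fin n} : (x, y) ∈ cut P B u v ↔
    (x, y) ∈ P ∨ (x = u ∧ (y ∈ Ys P B u v ∨ y ∈ B ∨ y = v)) ∨
      ((x ∈ Ds P u v ∨ x = u) ∧ y = v) := by
  unfold cut
  simp only [mem_union, mem_product, mem_singleton, Prod.mk.injEq]
  tauto

theorem mem_Ys {y : Fin n} : y ∈ Ys P B u v ↔ y ∉ B ∧ Ds P u v ⊂ Dn P y := by simp [Ys]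

theorem mem_Ds {y : Fin n} : y ∈ Ds P u v ↔ (y, u) ∈ P ∨ (y, v) ∈ P := by
  simp [Ds, mem_Dn]

/-- The larger of the two sets of predecessors. -/
theorem exists_w (h : St P A B kU kD) (hu : u ∉ B) (hv : v ∉ B) :
    ∃ w, (w = u ∨ w = v) ∧ Dn P w = Ds P u v := by
  rcases h.nestD u v hu hv with h1 | h1
  · exact ⟨v, Or.inr rfl, (union_eq_right.mpr h1).symm⟩
  · exact ⟨u, Or.inl rfl, (union_eq_left.mpr h1).symm⟩

/-- predecessors of a predecessor -/
theorem Dn_mono (h : St P A B kU kD) {y z : Fin n} (hyz : (y, z) ∈ P) : Dn P y ⊆ Dn P z := by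
  intro x hx
  exact mem_Dn.mpr (h.trans x y z (mem_Dn.mp hx) hyz)

/-- a vertex outside `B` above `u` or above `v` has more predecessors than `Ds` -/
theorem ssub_of_above (h : St P A B kU kD) (hu : u ∉ B) (hv : v ∉ B) (h1 : (u, v) ∉ P)
    (h2 : (v, u) ∉ P) {z t : Fin n} (ht : t = u ∨ t = v) (htz : (t, z) ∈ P) (hz : z ∉ B) :
    Ds P u v ⊂ Dn P z := by
  have htD : t ∉ Ds P u v := by
    rw [mem_Ds]
    rintro (h3 | h3)
    · rcases ht with rfl | rfl
      · exact h.irr _ h3
      · exact h2 h3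
    · rcases ht with rfl | rfl
      · exact h1 h3
      · exact h.irr _ h3
  have htz' : t ∈ Dn P z := mem_Dn.mpr htz
  have key : ∀ w, (w = u ∨ w = v) → Dn P w ⊆ Dn P z := by
    intro w hw
    have hwB : w ∉ B := by
      rcases hw with rfl | rfl
      · exact hu
      · exact hv
    rcases h.nestD w z hwB hz with h3 | h3
    · exact h3
    · exfalso
      apply htD
      have h4 := h3 htz'
      rcases hw with rfl | rfl
      · exact mem_union_left _ h4
      · exact mem_union_right _ h4
  have hsub : Ds P u v ⊆ Dn P z := union_subset (key u (Or.inl rfl)) (key v (Or.inr rfl))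
  exact (Finset.ssubset_iff_of_subset hsub).mpr ⟨t, htz', htD⟩

/-- The new sets of predecessors. -/
theorem Dn_cut (h : St P A B kU kD) (hu : u ∉ B) (hv : v ∉ B) (h1 : (u, v) ∉ P) (h2 : (v, u) ∉ P)
    (huv : u ≠ v) (z : Fin n) (hz : z ∉ B) :
    Dn (cut P B u v) z = if z = v then insert u (Ds P u v) else
      if Ds P u v ⊂ Dn P z then insert u (Dn P z) else Dn P z := by
  ext x
  rw [mem_Dn, mem_cut]
  by_cases hzv : z = v
  · subst hzv
    rw [if_pos rfl, mem_insert, mem_Ds]
    constructor
    · rintro (h3 | ⟨rfl, -⟩ | ⟨h3, -⟩)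
      · exact Or.inr (Or.inr h3)
      · exact Or.inl rfl
      · rcases h3 with h3 | rfl
        · exact Or.inr h3
        · exact Or.inl rfl
    · rintro (rfl | h3)
      · exact Or.inr (Or.inr ⟨Or.inr rfl, rfl⟩)
      · exact Or.inr (Or.inr ⟨Or.inl h3, rfl⟩)
  · rw [if_neg hzv]
    by_cases hss : Ds P u v ⊂ Dn P z
    · rw [if_pos hss, mem_insert, mem_Dn]
      constructor
      · rintro (h3 | ⟨rfl, -⟩ | ⟨-, h3⟩)
        · exact Or.inr h3
        · exact Or.inl rfl
        · exact absurd h3 hzv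
      · rintro (rfl | h3)
        · exact Or.inr (Or.inl ⟨rfl, Or.inl (mem_Ys.mpr ⟨hz, hss⟩)⟩)
        · exact Or.inl h3
    · rw [if_neg hss, mem_Dn]
      constructor
      · rintro (h3 | ⟨rfl, h3⟩ | ⟨-, h3⟩)
        · exact h3
        · rcases h3 with h3 | h3 | h3
          · exact absurd (mem_Ys.mp h3).2 hss
          · exact absurd h3 hz
          · exact absurd h3 hzv
        · exact absurd h3 hzv
      · exact Or.inl

/-- The sets of successors outside `A ∪ {u}` do not change. -/
theorem Up_cut (h : St P A B kU kD) (hu : u ∉ B) (hv : v ∉ B) {x : Fin n} (hxA : x ∉ A)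
    (hxu : x ≠ u) : Up (cut P B u v) x = Up P x := by
  ext y
  rw [mem_Up, mem_Up, mem_cut]
  constructor
  · rintro (h3 | ⟨h3, -⟩ | ⟨h3, -⟩)
    · exact h3
    · exact absurd h3 hxu
    · rcases h3 with h3 | h3
      · rcases mem_Ds.mp h3 with h4 | h4
        · rcases h.loc _ _ h4 with h5 | h5
          · exact absurd h5 hxA
          · exact absurd h5 hu
        · rcases h.loc _ _ h4 with h5 | h5
          · exact absurd h5 hxA
          · exact absurd h5 hv
      · exact absurd h3 hxu
  · exact Or.inl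

theorem cut_trans (h : St P A B kU kD) (hu : u ∉ B) (hv : v ∉ B) (h1 : (u, v) ∉ P)
    (h2 : (v, u) ∉ P) (huv : u ≠ v) (x y z : Fin n) (hxy : (x, y) ∈ cut P B u v)
    (hyz : (y, z) ∈ cut P B u v) : (x, z) ∈ cut P B u v := by
  have hAB : ∀ a b, a ∈ A → b ∈ B → (a, b) ∈ P := fun a b ha hb => h.full a ha b hb
  -- above `u` or `v`
  have hab : ∀ t, (t = u ∨ t = v) → (t, z) ∈ P → z ∈ Ys P B u v ∨ z ∈ B := by
    intro t ht htz
    by_cases hz : z ∈ B
    · exact Or.inr hz
    · exact Or.inl (mem_Ys.mpr ⟨hz, ssub_of_above h hu hv h1 h2 ht htz hz⟩)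
  -- below `Ds`
  have hDA : ∀ x, x ∈ Ds P u v → x ∈ A := by
    intro x hx
    rcases mem_Ds.mp hx with h4 | h4
    · rcases h.loc _ _ h4 with h5 | h5
      · exact h5
      · exact absurd h5 hu
    · rcases h.loc _ _ h4 with h5 | h5
      · exact h5
      · exact absurd h5 hv
  rw [mem_cut] at hxy hyz ⊢
  rcases hxy with hxy | ⟨rfl, hy⟩ | ⟨hx, rfl⟩
  · rcases hyz with hyz | ⟨rfl, hz⟩ | ⟨hy, rfl⟩
    · exact Or.inl (h.trans x y z hxy hyz)
    · -- x < u, z in Y
      rcases hz with hz | hz | rfl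
      · left
        exact mem_Dn.mp ((mem_Ys.mp hz).2.1 (mem_Ds.mpr (Or.inl hxy)))
      · left
        exact hAB x z (hDA x (mem_Ds.mpr (Or.inl hxy))) hz
      · exact Or.inr (Or.inr ⟨Or.inl (mem_Ds.mpr (Or.inl hxy)), rfl⟩)
    · -- x < y, y in X, z = v
      right; right
      refine ⟨Or.inl ?_, rfl⟩
      rcases hy with hy | rfl
      · rcases mem_Ds.mp hy with h4 | h4
        · exact mem_Ds.mpr (Or.inl (h.trans x y u hxy h4))
        · exact mem_Ds.mpr (Or.inr (h.trans x y z hxy h4))
      · exact mem_Ds.mpr (Or.inl hxy)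
  · -- x = u, y in Y
    rcases hyz with hyz | ⟨rfl, hz⟩ | ⟨-, rfl⟩
    · rcases hy with hy | hy | rfl
      · by_cases hz : z ∈ B
        · exact Or.inr (Or.inl ⟨rfl, Or.inr (Or.inl hz)⟩)
        · right; left
          refine ⟨rfl, Or.inl (mem_Ys.mpr ⟨hz, ?_⟩)⟩
          exact lt_of_lt_of_le (mem_Ys.mp hy).2 (Dn_mono h hyz)
      · right; left
        refine ⟨rfl, Or.inr (Or.inl ?_)⟩
        rcases h.loc _ _ hyz with h5 | h5
        · exact absurd hy (h.disj y h5)
        · exact h5
      · rcases hab y (Or.inr rfl) hyz with h5 | h5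
        · exact Or.inr (Or.inl ⟨rfl, Or.inl h5⟩)
        · exact Or.inr (Or.inl ⟨rfl, Or.inr (Or.inl h5)⟩)
    · exact Or.inr (Or.inl ⟨rfl, hz⟩)
    · exact Or.inr (Or.inr ⟨Or.inr rfl, rfl⟩)
  · -- x in X, y = v
    rcases hyz with hyz | ⟨h3, -⟩ | ⟨h3, rfl⟩
    · rcases hab y (Or.inr rfl) hyz with h5 | h5
      · rcases hx with hx | rfl
        · left
          exact mem_Dn.mp ((mem_Ys.mp h5).2.1 hx)
        · exact Or.inr (Or.inl ⟨rfl, Or.inl h5⟩)
      · rcases hx with hx | rfl
        · left
          exact hAB x z (hDA x hx) h5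
        · exact Or.inr (Or.inl ⟨rfl, Or.inr (Or.inl h5)⟩)
    · exact absurd h3 huv.symm
    · exact Or.inr (Or.inr ⟨hx, rfl⟩)

theorem cut_irr (h : St P A B kU kD) (hu : u ∉ B) (hv : v ∉ B) (h1 : (u, v) ∉ P)
    (h2 : (v, u) ∉ P) (huv : u ≠ v) (x : Fin n) : (x, x) ∉ cut P B u v := by
  rw [mem_cut]
  rintro (h3 | ⟨rfl, h3⟩ | ⟨h3, rfl⟩)
  · exact h.irr x h3
  · rcases h3 with h3 | h3 | h3
    · have h4 := (mem_Ys.mp h3).2
      exact h4.2 subset_union_left
    · exact hu h3
    · exact huv h3
  · rcases h3 with h3 | h3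
    · rcases mem_Ds.mp h3 with h4 | h4
      · exact h2 h4
      · exact h.irr x h4
    · exact huv h3.symm

/-- The state after the answer to the attack `(u, v)`. -/
theorem St.cut (h : St P A B kU kD) (hu : u ∉ B) (hv : v ∉ B) (h1 : (u, v) ∉ P)
    (h2 : (v, u) ∉ P) (huv : u ≠ v) : St (cut P B u v) (insert u A) B (kU + 1) kD where
  irr := cut_irr h hu hv h1 h2 huv
  trans := cut_trans h hu hv h1 h2 huv
  disj x hx := by
    rw [mem_insert] at hx
    rcases hx with rfl | hx
    · exact hu
    · exact h.disj x hx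
  full a ha b hb := by
    rw [mem_cut]
    rw [mem_insert] at ha
    rcases ha with rfl | ha
    · exact Or.inr (Or.inl ⟨rfl, Or.inr (Or.inl hb)⟩)
    · exact Or.inl (h.full a ha b hb)
  loc x y hxy := by
    rw [mem_insert]
    rw [mem_cut] at hxy
    rcases hxy with h3 | ⟨h3, -⟩ | ⟨h3, rfl⟩
    · rcases h.loc x y h3 with h4 | h4
      · exact Or.inl (Or.inr h4)
      · exact Or.inr h4
    · exact Or.inl (Or.inl h3)
    · rcases h3 with h3 | h3
      · rcases mem_Ds.mp h3 with h4 | h4
        · rcases h.loc _ _ h4 with h5 | h5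
          · exact Or.inl (Or.inr h5)
          · exact absurd h5 hu
        · rcases h.loc _ _ h4 with h5 | h5
          · exact Or.inl (Or.inr h5)
          · exact absurd h5 hv
      · exact Or.inl (Or.inl h3)
  nestD x y hx hy := by
    rw [Dn_cut h hu hv h1 h2 huv x hx, Dn_cut h hu hv h1 h2 huv y hy]
    obtain ⟨w, hw, hwD⟩ := exists_w h hu hv
    have hwB : w ∉ B := by
      rcases hw with rfl | rfl
      · exact hu
      · exact hv
    -- either at most `Ds` or larger
    have hdich : ∀ z, z ∉ B → ¬ Ds P u v ⊂ Dn P z → Dn P z ⊆ Ds P u v := by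
      intro z hz hns
      rw [← hwD] at hns ⊢
      rcases h.nestD z w hz hwB with h5 | h5
      · exact h5
      · by_contra hcon
        exact hns ⟨h5, hcon⟩
    by_cases hxv : x = v
    · rw [if_pos hxv]
      by_cases hyv : y = v
      · rw [if_pos hyv]
        exact Or.inl (Subset.refl _)
      · rw [if_neg hyv]
        by_cases hys : Ds P u v ⊂ Dn P y
        · rw [if_pos hys]
          exact Or.inl (insert_subset_insert _ hys.1)
        · rw [if_neg hys]
          exact Or.inr ((hdich y hy hys).trans (subset_insert _ _))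
    · rw [if_neg hxv]
      by_cases hxs : Ds P u v ⊂ Dn P x
      · rw [if_pos hxs]
        by_cases hyv : y = v
        · rw [if_pos hyv]
          exact Or.inr (insert_subset_insert _ hxs.1)
        · rw [if_neg hyv]
          by_cases hys : Ds P u v ⊂ Dn P y
          · rw [if_pos hys]
            rcases h.nestD x y hx hy with h5 | h5
            · exact Or.inl (insert_subset_insert _ h5)
            · exact Or.inr (insert_subset_insert _ h5)
          · rw [if_neg hys]
            exact Or.inr (((hdich y hy hys).trans hxs.1).trans (subset_insert _ _))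
      · rw [if_neg hxs]
        by_cases hyv : y = v
        · rw [if_pos hyv]
          exact Or.inl ((hdich x hx hxs).trans (subset_insert _ _))
        · rw [if_neg hyv]
          by_cases hys : Ds P u v ⊂ Dn P y
          · rw [if_pos hys]
            exact Or.inl (((hdich x hx hxs).trans hys.1).trans (subset_insert _ _))
          · rw [if_neg hys]
            exact h.nestD x y hx hy
  nestU x y hx hy := by
    rw [mem_insert, not_or] at hx hy
    rw [Up_cut h hu hv hx.2 hx.1, Up_cut h hu hv hy.2 hy.1]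
    exact h.nestU x y hx.2 hy.2
  envU x hx := by
    obtain ⟨w, hw, hwD⟩ := exists_w h hu hv
    have hwB : w ∉ B := by
      rcases hw with rfl | rfl
      · exact hu
      · exact hv
    have hdich : ∀ z, z ∉ B → ¬ Ds P u v ⊂ Dn P z → Dn P z ⊆ Ds P u v := by
      intro z hz hns
      rw [← hwD] at hns ⊢
      rcases h.nestD z w hz hwB with h5 | h5
      · exact h5
      · by_contra hcon
        exact hns ⟨h5, hcon⟩
    rw [Dn_cut h hu hv h1 h2 huv x hx]
    by_cases hxv : x = v
    · rw [if_pos hxv]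
      have hc1 : (insert u (Ds P u v)).card ≤ (Dn P w).card + 1 := by
        rw [hwD]
        exact card_insert_le _ _
      have hc2 : (univ.filter fun y => y ∉ B ∧ insert u (Ds P u v) ⊂
          Dn (Helper15_OCG.cut P B u v) y).card ≤
            (univ.filter fun y => y ∉ B ∧ Dn P w ⊂ Dn P y).card := by
        apply card_le_card
        intro y hy
        rw [mem_filter] at hy ⊢
        obtain ⟨-, hyB, hy2⟩ := hy
        refine ⟨mem_univ _, hyB, ?_⟩
        rw [Dn_cut h hu hv h1 h2 huv y hyB] at hy2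
        rw [hwD]
        by_contra hns
        by_cases hyv : y = v
        · rw [if_pos hyv] at hy2
          exact hy2.2 (Subset.refl _)
        · rw [if_neg hyv, if_neg hns] at hy2
          exact hy2.2 ((hdich y hyB hns).trans (subset_insert _ _))
      have := h.envU w hwB
      omega
    · rw [if_neg hxv]
      by_cases hxs : Ds P u v ⊂ Dn P x
      · rw [if_pos hxs]
        have hc1 : (insert u (Dn P x)).card ≤ (Dn P x).card + 1 := card_insert_le _ _
        have hc2 : (univ.filter fun y => y ∉ B ∧ insert u (Dn P x) ⊂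
            Dn (Helper15_OCG.cut P B u v) y).card ≤
              (univ.filter fun y => y ∉ B ∧ Dn P x ⊂ Dn P y).card := by
          apply card_le_card
          intro y hy
          rw [mem_filter] at hy ⊢
          obtain ⟨-, hyB, hy2⟩ := hy
          refine ⟨mem_univ _, hyB, ?_⟩
          rw [Dn_cut h hu hv h1 h2 huv y hyB] at hy2
          by_cases hyv : y = v
          · rw [if_pos hyv] at hy2
            exact absurd (insert_subset_insert u hxs.1) hy2.2
          · rw [if_neg hyv] at hy2
            by_cases hys : Ds P u v ⊂ Dn P y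
            · rw [if_pos hys] at hy2
              rcases h.nestD x y hx hyB with h5 | h5
              · refine ⟨h5, fun h6 => ?_⟩
                exact hy2.2 (insert_subset_insert _ h6)
              · exact absurd (insert_subset_insert u h5) hy2.2
            · rw [if_neg hys] at hy2
              exact absurd (((hdich y hyB hys).trans hxs.1).trans (subset_insert _ _)) hy2.2
        have := h.envU x hx
        omega
      · rw [if_neg hxs]
        have hc2 : (univ.filter fun y => y ∉ B ∧ Dn P x ⊂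
            Dn (Helper15_OCG.cut P B u v) y).card ≤
              (univ.filter fun y => y ∉ B ∧ Dn P x ⊂ Dn P y).card + 1 := by
          refine le_trans (card_le_card ?_) (card_insert_le v _)
          intro y hy
          rw [mem_insert, mem_filter]
          rw [mem_filter] at hy
          obtain ⟨-, hyB, hy2⟩ := hy
          by_cases hyv : y = v
          · exact Or.inl hyv
          · right
            refine ⟨mem_univ _, hyB, ?_⟩
            rw [Dn_cut h hu hv h1 h2 huv y hyB, if_neg hyv] at hy2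
            by_cases hys : Ds P u v ⊂ Dn P y
            · exact lt_of_le_of_lt (hdich x hx hxs) hys
            · rwa [if_neg hys] at hy2
        have := h.envU x hx
        omega
  envD x hx := by
    rw [mem_insert, not_or] at hx
    refine le_trans (Nat.add_le_add (by rw [Up_cut h hu hv hx.2 hx.1]) (card_le_card ?_))
      (h.envD x hx.2)
    intro y hy
    rw [mem_filter] at hy ⊢
    obtain ⟨-, hyA, hy2⟩ := hy
    rw [mem_insert, not_or] at hyA
    rw [Up_cut h hu hv hx.2 hx.1, Up_cut h hu hv hyA.2 hyA.1] at hy2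
    exact ⟨mem_univ _, hyA.2, hy2⟩

/-- The cost of the answer. -/
theorem card_cut (h : St P A B kU kD) (hu : u ∉ B) (hv : v ∉ B) :
    (cut P B u v).card ≤ P.card + kU + 1 + (if u ∈ A then 0 else B.card) := by
  obtain ⟨w, hw, hwD⟩ := exists_w h hu hv
  have hwB : w ∉ B := by
    rcases hw with rfl | rfl
    · exact hu
    · exact hv
  have henv := h.envU w hwB
  rw [hwD] at henv
  have hY : (Ys P B u v).card = (univ.filter fun y => y ∉ B ∧ Ds P u v ⊂ Dn P y).card := rfl
  rw [← hY] at henv
  by_cases huA : u ∈ A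
  · rw [if_pos huA]
    have hsub : cut P B u v ⊆ P ∪ (({u} ×ˢ Ys P B u v) ∪ ((Ds P u v ×ˢ {v}) ∪ {(u, v)})) := by
      intro e he
      unfold cut at he
      simp only [mem_union] at he ⊢
      rcases he with h3 | h3 | h3 | h3 | h3
      · exact Or.inl h3
      · exact Or.inr (Or.inl h3)
      · left
        obtain ⟨e1, e2⟩ := e
        rw [mem_product, mem_singleton] at h3
        obtain ⟨h4, h5⟩ := h3
        have h4' : e1 = u := h4
        rw [h4']
        exact h.full u huA _ h5
      · exact Or.inr (Or.inr (Or.inl h3))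
      · exact Or.inr (Or.inr (Or.inr h3))
    have hcard := card_le_card hsub
    have h3 := card_union_le P (({u} ×ˢ Ys P B u v) ∪ ((Ds P u v ×ˢ {v}) ∪ {(u, v)}))
    have h4 := card_union_le ({u} ×ˢ Ys P B u v) ((Ds P u v ×ˢ {v}) ∪ {(u, v)})
    have h5 := card_union_le (Ds P u v ×ˢ {v}) ({(u, v)} : Finset (Fin n × Fin n))
    rw [card_product, card_singleton] at h4 h5
    rw [card_singleton] at h5
    omega
  · rw [if_neg huA]
    unfold cut
    have h3 := card_union_le P
      (({u} ×ˢ Ys P B u v) ∪ (({u} ×ˢ B) ∪ ((Ds P u v ×ˢ {v}) ∪ {(u, v)})))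
    have h4 := card_union_le ({u} ×ˢ Ys P B u v) (({u} ×ˢ B) ∪ ((Ds P u v ×ˢ {v}) ∪ {(u, v)}))
    have h5 := card_union_le ({u} ×ˢ B) ((Ds P u v ×ˢ {v}) ∪ {(u, v)})
    have h6 := card_union_le (Ds P u v ×ˢ {v}) ({(u, v)} : Finset (Fin n × Fin n))
    rw [card_product, card_singleton] at h4 h5 h6
    rw [card_singleton] at h6
    omega

theorem subset_cut : P ⊆ cut P B u v := subset_union_left

theorem attack_mem_cut : (u, v) ∈ cut P B u v :=
  mem_cut.mpr (Or.inr (Or.inr ⟨Or.inr rfl, rfl⟩))

/-- LEFT CUT. -/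
theorem St.left (h : St P A B kU kD) (huv : u ≠ v) (hu : u ∉ B) (hv : v ∉ B) (h1 : (u, v) ∉ P)
    (h2 : (v, u) ∉ P) : ∃ P' : Position n, P ⊆ P' ∧ (u, v) ∈ P' ∧
      St P' (insert u A) B (kU + 1) kD ∧
      P'.card ≤ P.card + kU + 1 + (if u ∈ A then 0 else B.card) :=
  ⟨Helper15_OCG.cut P B u v, subset_cut, attack_mem_cut, h.cut hu hv h1 h2 huv,
    card_cut h hu hv⟩

/-- RIGHT CUT. -/
theorem St.right (h : St P A B kU kD) (huv : u ≠ v) (hu : u ∉ A) (hv : v ∉ A) (h1 : (u, v) ∉ P)
    (h2 : (v, u) ∉ P) : ∃ P' : Position n, P ⊆ P' ∧ (u, v) ∈ P' ∧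
      St P' A (insert v B) kU (kD + 1) ∧
      P'.card ≤ P.card + kD + 1 + (if v ∈ B then 0 else A.card) := by
  obtain ⟨Q, hQ, hm, hst, hc⟩ := h.rev.left (u := v) (v := u) huv.symm hv hu
    (fun h3 => h1 (mem_rev.mp h3)) (fun h3 => h2 (mem_rev.mp h3))
  refine ⟨Pool.Agent.Helper15_OCG.rev Q, ?_, mem_rev.mpr hm, hst.rev, ?_⟩
  · have := rev_mono hQ
    rwa [rev_rev] at this
  · rw [card_rev]
    rwa [card_rev] at hc

end

end Pool.Agent.Helper15_OCG
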