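import Pool.Agent.Helper51_OCG.Game

/-!
# MP_64dd91_co: two-layer positions of the oriented-cycle game

Positions `P` which are strict partial orders with two disjoint sets `A`, `B` of vertices, every
vertex of `A` below every vertex of `B`; every relation `(x, y)` has `x ∈ A` or `y ∈ B`; outside
`B` the sets of the predecessors are nested, outside `A` the sets of the successors are nested, and
the numbers `|D(x)| + #{y : D(x) ⊂ D(y)}` (outside `B`) are at most `kU`, the dual ones at most
`kD`.
-/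

set_option autoImplicit false

namespace Pool.Agent.Helper15_OCG

open Finset Pool.Agent.Helper51_OCG

variable {n : ℕ}

/-- The predecessors of `x`. -/
def Dn (P : Position n) (x : Fin n) : Finset (Fin n) := univ.filter fun z => (z, x) ∈ P

/-- The successors of `x`. -/
def Up (P : Position n) (x : Fin n) : Finset (Fin n) := univ.filter fun z => (x, z) ∈ P

theorem mem_Dn {P : Position n} {x z : Fin n} : z ∈ Dn P x ↔ (z, x) ∈ P := by simp [Dn]

theorem mem_Up {P : Position n} {x z : Fin n} : z ∈ Up P x ↔ (x, z) ∈ P := by simp [Up]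

/-- Two-layer positions. -/
structure St (P : Position n) (A B : Finset (Fin n)) (kU kD : ℕ) : Prop where
  irr : ∀ x, (x, x) ∉ P
  trans : ∀ x y z, (x, y) ∈ P → (y, z) ∈ P → (x, z) ∈ P
  disj : ∀ x, x ∈ A → x ∉ B
  full : ∀ a ∈ A, ∀ b ∈ B, (a, b) ∈ P
  loc : ∀ x y, (x, y) ∈ P → x ∈ A ∨ y ∈ B
  nestD : ∀ x y, x ∉ B → y ∉ B → Dn P x ⊆ Dn P y ∨ Dn P y ⊆ Dn P x
  nestU : ∀ x y, x ∉ A → y ∉ A → Up P x ⊆ Up P y ∨ Up P y ⊆ Up P x
  envU : ∀ x, x ∉ B →
    (Dn P x).card + (univ.filter fun y => y ∉ B ∧ Dn P x ⊂ Dn P y).card ≤ kU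
  envD : ∀ x, x ∉ A →
    (Up P x).card + (univ.filter fun y => y ∉ A ∧ Up P x ⊂ Up P y).card ≤ kD

/-! ## Duality -/

/-- The position with all arcs reversed. -/
def rev (P : Position n) : Position n := P.image Prod.swap

theorem mem_rev {P : Position n} {x y : Fin n} : (x, y) ∈ rev P ↔ (y, x) ∈ P := by
  unfold rev
  rw [mem_image]
  constructor
  · rintro ⟨⟨a, b⟩, hab, h⟩
    rw [Prod.swap_prod_mk, Prod.mk.injEq] at h
    obtain ⟨rfl, rfl⟩ := h
    exact hab
  · intro h
    exact ⟨(y, x), h, rfl⟩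

theorem rev_rev (P : Position n) : rev (rev P) = P := by
  ext ⟨x, y⟩
  rw [mem_rev, mem_rev]

theorem card_rev (P : Position n) : (rev P).card = P.card :=
  card_image_of_injective _ Prod.swap_injective

theorem rev_mono {P Q : Position n} (h : P ⊆ Q) : rev P ⊆ rev Q := image_subset_image h

theorem Dn_rev (P : Position n) (x : Fin n) : Dn (rev P) x = Up P x := by
  ext z
  rw [mem_Dn, mem_Up, mem_rev]

theorem Up_rev (P : Position n) (x : Fin n) : Up (rev P) x = Dn P x := by
  ext z
  rw [mem_Up, mem_Dn, mem_rev]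

theorem St.rev {P : Position n} {A B : Finset (Fin n)} {kU kD : ℕ} (h : St P A B kU kD) :
    St (rev P) B A kD kU where
  irr x hx := h.irr x (mem_rev.mp hx)
  trans x y z hxy hyz := mem_rev.mpr (h.trans z y x (mem_rev.mp hyz) (mem_rev.mp hxy))
  disj x hx hx' := h.disj x hx' hx
  full a ha b hb := mem_rev.mpr (h.full b hb a ha)
  loc x y hxy := (h.loc y x (mem_rev.mp hxy)).symm
  nestD x y hx hy := by
    rw [Dn_rev, Dn_rev]
    exact h.nestU x y hx hy
  nestU x y hx hy := by
    rw [Up_rev, Up_rev]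
    exact h.nestD x y hx hy
  envU x hx := by
    simp only [Dn_rev]
    exact h.envD x hx
  envD x hx := by
    simp only [Up_rev]
    exact h.envU x hx

/-- The empty position. -/
theorem st_empty : St (∅ : Position n) ∅ ∅ 0 0 where
  irr x := notMem_empty _
  trans x y z h := absurd h (notMem_empty _)
  disj x h := absurd h (notMem_empty _)
  full a h := absurd h (notMem_empty _)
  loc x y h := absurd h (notMem_empty _)
  nestD x y _ _ := by
    left
    intro z hz
    exact absurd (mem_Dn.mp hz) (notMem_empty _)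
  nestU x y _ _ := by
    left
    intro z hz
    exact absurd (mem_Up.mp hz) (notMem_empty _)
  envU x _ := by
    have h : ∀ x : Fin n, Dn (∅ : Position n) x = ∅ := by
      intro x
      ext z
      simp [mem_Dn]
    simp [h]
  envD x _ := by
    have h : ∀ x : Fin n, Up (∅ : Position n) x = ∅ := by
      intro x
      ext z
      simp [mem_Up]
    simp [h]

/-! ## Typing an element -/

/-- An element outside `A` and `B` is put below all of `B`. -/
theorem St.typeA {P : Position n} {A B : Finset (Fin n)} {kU kD : ℕ} (h : St P A B kU kD)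
    {z : Fin n} (hzA : z ∉ A) (hzB : z ∉ B) :
    ∃ P' : Position n, P ⊆ P' ∧ St P' (insert z A) B kU kD ∧ P'.card ≤ P.card + B.card := by
  classical
  refine ⟨P ∪ ({z} ×ˢ B), subset_union_left, ?_, ?_⟩
  swap
  · refine (card_union_le _ _).trans ?_
    rw [card_product, card_singleton, one_mul]
  have hmem : ∀ x y, (x, y) ∈ P ∪ ({z} ×ˢ B) ↔ (x, y) ∈ P ∨ (x = z ∧ y ∈ B) := by
    intro x y
    rw [mem_union, mem_product, mem_singleton]
  have hD : ∀ x, x ∉ B → Dn (P ∪ ({z} ×ˢ B)) x = Dn P x := by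
    intro x hx
    ext w
    rw [mem_Dn, mem_Dn, hmem]
    constructor
    · rintro (h1 | ⟨-, h1⟩)
      · exact h1
      · exact absurd h1 hx
    · exact Or.inl
  have hU : ∀ x, x ≠ z → Up (P ∪ ({z} ×ˢ B)) x = Up P x := by
    intro x hx
    ext w
    rw [mem_Up, mem_Up, hmem]
    constructor
    · rintro (h1 | ⟨h1, -⟩)
      · exact h1
      · exact absurd h1 hx
    · exact Or.inl
  constructor
  · intro x hx
    rcases (hmem x x).mp hx with h1 | ⟨rfl, h1⟩
    · exact h.irr x h1
    · exact hzB h1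
  · intro x y w hxy hyw
    rw [hmem] at hxy hyw ⊢
    rcases hxy with h1 | ⟨rfl, h1⟩
    · rcases hyw with h2 | ⟨rfl, h2⟩
      · exact Or.inl (h.trans x y w h1 h2)
      · rcases h.loc x y h1 with h3 | h3
        · exact Or.inl (h.full x h3 w h2)
        · exact absurd h3 hzB
    · rcases hyw with h2 | ⟨rfl, h2⟩
      · right
        refine ⟨rfl, ?_⟩
        rcases h.loc y w h2 with h3 | h3
        · exact absurd h1 (h.disj y h3)
        · exact h3
      · exact absurd h1 hzB
  · intro x hx
    rw [mem_insert] at hx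
    rcases hx with rfl | hx
    · exact hzB
    · exact h.disj x hx
  · intro a ha b hb
    rw [hmem]
    rw [mem_insert] at ha
    rcases ha with rfl | ha
    · exact Or.inr ⟨rfl, hb⟩
    · exact Or.inl (h.full a ha b hb)
  · intro x y hxy
    rw [hmem] at hxy
    rw [mem_insert]
    rcases hxy with h1 | ⟨rfl, h1⟩
    · rcases h.loc x y h1 with h3 | h3
      · exact Or.inl (Or.inr h3)
      · exact Or.inr h3
    · exact Or.inr h1
  · intro x y hx hy
    rw [hD x hx, hD y hy]
    exact h.nestD x y hx hy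
  · intro x y hx hy
    rw [mem_insert, not_or] at hx hy
    rw [hU x hx.1, hU y hy.1]
    exact h.nestU x y hx.2 hy.2
  · intro x hx
    refine le_trans (Nat.add_le_add (by rw [hD x hx]) (card_le_card ?_)) (h.envU x hx)
    intro y hy
    rw [mem_filter] at hy ⊢
    obtain ⟨-, hyB, hy2⟩ := hy
    rw [hD x hx, hD y hyB] at hy2
    exact ⟨mem_univ _, hyB, hy2⟩
  · intro x hx
    rw [mem_insert, not_or] at hx
    refine le_trans (Nat.add_le_add (by rw [hU x hx.1]) (card_le_card ?_)) (h.envD x hx.2)
    intro y hy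
    rw [mem_filter] at hy ⊢
    obtain ⟨-, hyA, hy2⟩ := hy
    rw [mem_insert, not_or] at hyA
    rw [hU x hx.1, hU y hyA.1] at hy2
    exact ⟨mem_univ _, hyA.2, hy2⟩

/-- An element outside `A` and `B` is put above all of `A`. -/
theorem St.typeB {P : Position n} {A B : Finset (Fin n)} {kU kD : ℕ} (h : St P A B kU kD)
    {z : Fin n} (hzA : z ∉ A) (hzB : z ∉ B) :
    ∃ P' : Position n, P ⊆ P' ∧ St P' A (insert z B) kU kD ∧ P'.card ≤ P.card + A.card := by
  obtain ⟨Q, hQ, hst, hc⟩ := h.rev.typeA hzB hzA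
  refine ⟨Pool.Agent.Helper15_OCG.rev Q, ?_, hst.rev, ?_⟩
  · have := rev_mono hQ
    rwa [rev_rev] at this
  · rw [card_rev]
    rwa [card_rev] at hc

end Pool.Agent.Helper15_OCG
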