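import Pool.Agent.Helper15_OCG.Cut

/-!
# MP_64dd91_co: OBreaker's strategy under the monotone rules
-/

set_option autoImplicit false

namespace Pool.Agent.Helper15_OCG

open Finset Pool.Agent.Helper51_OCG

variable {n : ℕ} {P : Position n} {A B : Finset (Fin n)} {kU kD b N : ℕ} {u v : Fin n}

/-! ## Generalities -/

theorem St.card_add (h : St P A B kU kD) : A.card + B.card ≤ n := by
  have hd : Disjoint A B := Finset.disjoint_left.mpr fun {x} hx hx' => h.disj x hx hx'
  rw [← card_union_of_disjoint hd]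
  refine (card_le_univ _).trans ?_
  rw [Fintype.card_fin]

theorem exists_untyped (h : A.card + B.card < n) : ∃ z : Fin n, z ∉ A ∧ z ∉ B := by
  by_contra hcon
  push Not at hcon
  have h1 : (univ : Finset (Fin n)) ⊆ A ∪ B := by
    intro z _
    rw [mem_union]
    by_cases hz : z ∈ A
    · exact Or.inl hz
    · exact Or.inr (hcon z hz)
  have h2 := card_le_card h1
  rw [card_univ, Fintype.card_fin] at h2
  have h3 := card_union_le A B
  omega

theorem St.cases (h : St P A B kU kD) (h1 : (u, v) ∉ P) (h2 : (v, u) ∉ P) :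
    (u ∉ B ∧ v ∉ B) ∨ (u ∉ A ∧ v ∉ A) := by
  by_cases huB : u ∈ B
  · right
    exact ⟨fun hu => h.disj u hu huB, fun hv => h2 (h.full v hv u huB)⟩
  · by_cases hvB : v ∈ B
    · right
      exact ⟨fun hu => h1 (h.full u hu v hvB), fun hv => h.disj v hv hvB⟩
    · exact Or.inl ⟨huB, hvB⟩

/-- If all vertices are in `A ∪ B` then the first bound holds with `|A| - 1`. -/
theorem St.resetU (h : St P A B kU kD) (hall : ∀ x, x ∈ A ∨ x ∈ B) :
    St P A B (A.card - 1) kD where
  irr := h.irr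
  trans := h.trans
  disj := h.disj
  full := h.full
  loc := h.loc
  nestD := h.nestD
  nestU := h.nestU
  envD := h.envD
  envU x hx := by
    have hxA : x ∈ A := (hall x).resolve_right hx
    have hdis : Disjoint (Dn P x) (univ.filter fun y => y ∉ B ∧ Dn P x ⊂ Dn P y) := by
      rw [Finset.disjoint_left]
      intro z hz hz'
      rw [mem_filter] at hz'
      exact hz'.2.2.2 (Dn_mono h (mem_Dn.mp hz))
    rw [← card_union_of_disjoint hdis, ← card_erase_of_mem hxA]
    apply card_le_card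
    intro z hz
    rw [mem_union, mem_filter] at hz
    rw [mem_erase]
    rcases hz with hz | ⟨-, hzB, hz⟩
    · refine ⟨?_, ?_⟩
      · rintro rfl
        exact h.irr z (mem_Dn.mp hz)
      · rcases h.loc z x (mem_Dn.mp hz) with h3 | h3
        · exact h3
        · exact absurd h3 hx
    · refine ⟨?_, (hall z).resolve_right hzB⟩
      rintro rfl
      exact hz.2 (Subset.refl _)

theorem St.resetD (h : St P A B kU kD) (hall : ∀ x, x ∈ A ∨ x ∈ B) :
    St P A B kU (B.card - 1) := by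
  have h1 := (h.rev.resetU fun x => (hall x).symm).rev
  rwa [rev_rev] at h1

/-! ## Good positions -/

/-- Safe positions. -/
def Safe (b : ℕ) (P : Position n) : Prop :=
  ∃ A B kU kD, St P A B kU kD ∧ n + kU ≤ b + A.card ∧ n + kD ≤ b + B.card

/-- Final positions: all vertices are in `A ∪ B`. -/
def Fnl (b : ℕ) (P : Position n) : Prop :=
  ∃ A B kU kD, St P A B kU kD ∧ (∀ x, x ∈ A ∨ x ∈ B) ∧ A.card ≤ b ∧ B.card ≤ b

/-- Safe or final positions. -/
def Good (b : ℕ) (P : Position n) : Prop := Safe b P ∨ Fnl b P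

theorem fnl_step (h : Fnl b P) (huv : u ≠ v) (h1 : (u, v) ∉ P) (h2 : (v, u) ∉ P) :
    ∃ P' : Position n, P ⊆ P' ∧ (u, v) ∈ P' ∧ Fnl b P' ∧ P'.card ≤ P.card + b := by
  obtain ⟨A, B, kU, kD, hst, hall, hA, hB⟩ := h
  rcases hst.cases h1 h2 with ⟨hu, hv⟩ | ⟨hu, hv⟩
  · have huA : u ∈ A := (hall u).resolve_right hu
    have hA1 : 1 ≤ A.card := card_pos.mpr ⟨u, huA⟩
    obtain ⟨P', hP', hm, hst', hc⟩ := (hst.resetU hall).left huv hu hv h1 h2
    rw [insert_eq_self.mpr huA] at hst'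
    rw [if_pos huA] at hc
    exact ⟨P', hP', hm, ⟨A, B, _, _, hst', hall, hA, hB⟩, by omega⟩
  · have hvB : v ∈ B := (hall v).resolve_left hv
    have hB1 : 1 ≤ B.card := card_pos.mpr ⟨v, hvB⟩
    obtain ⟨P', hP', hm, hst', hc⟩ := (hst.resetD hall).right huv hu hv h1 h2
    rw [insert_eq_self.mpr hvB] at hst'
    rw [if_pos hvB] at hc
    exact ⟨P', hP', hm, ⟨A, B, _, _, hst', hall, hA, hB⟩, by omega⟩

/-- A safe position in which all vertices are in `A ∪ B` is final. -/
theorem fnl_of_all (hst : St P A B kU kD) (h3 : n + kU ≤ b + A.card) (h4 : n + kD ≤ b + B.card)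
    (hall : ¬ ∃ z : Fin n, z ∉ A ∧ z ∉ B) : Fnl b P := by
  have h5 := hst.card_add
  have h6 : ¬ A.card + B.card < n := fun h => hall (exists_untyped h)
  refine ⟨A, B, kU, kD, hst, fun x => ?_, by omega, by omega⟩
  by_contra hcon
  rw [not_or] at hcon
  exact hall ⟨x, hcon⟩

/-- An undirected edge. -/
theorem exists_edge (h : undirected P ≠ ∅) : ∃ u v, u ≠ v ∧ (u, v) ∉ P ∧ (v, u) ∉ P := by
  obtain ⟨e, he⟩ := nonempty_iff_ne_empty.mpr h
  rw [mem_undirected] at he
  exact ⟨e.1, e.2, he.1.ne, he.2.1, he.2.2⟩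

theorem fnl_ext (h : Fnl b P) (hP : undirected P ≠ ∅) :
    ∃ P' : Position n, Good b P' ∧ P ⊆ P' ∧ P.card < P'.card ∧ P'.card ≤ P.card + b := by
  obtain ⟨u, v, huv, h1, h2⟩ := exists_edge hP
  obtain ⟨P', hP', hm, hF, hc⟩ := fnl_step h huv h1 h2
  refine ⟨P', Or.inr hF, hP', card_lt_card ?_, hc⟩
  exact (Finset.ssubset_iff_of_subset hP').mpr ⟨_, hm, h1⟩

theorem safe_ext (hP : undirected P ≠ ∅) : ∀ (m : ℕ) (A B : Finset (Fin n)) (kU kD : ℕ),
    St P A B kU kD → n + kU ≤ b + A.card → n + kD ≤ b + B.card → n - A.card - B.card = m →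
    ∃ P' : Position n, Good b P' ∧ P ⊆ P' ∧ P.card < P'.card ∧ P'.card ≤ P.card + b := by
  intro m
  induction m with
  | zero =>
    intro A B kU kD hst h3 h4 hm
    refine fnl_ext (fnl_of_all hst h3 h4 ?_) hP
    rintro ⟨z, hzA, hzB⟩
    have h5 := hst.card_add
    have hd : Disjoint A B := Finset.disjoint_left.mpr fun {x} hx hx' => hst.disj x hx hx'
    have h6 : z ∉ A ∪ B := by
      rw [mem_union, not_or]
      exact ⟨hzA, hzB⟩
    have h7 : (insert z (A ∪ B)).card ≤ n := by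
      refine (card_le_univ _).trans ?_
      rw [Fintype.card_fin]
    rw [card_insert_of_notMem h6, card_union_of_disjoint hd] at h7
    omega
  | succ m ih =>
    intro A B kU kD hst h3 h4 hm
    obtain ⟨z, hzA, hzB⟩ := exists_untyped (A := A) (B := B) (by omega)
    have h5 := hst.card_add
    obtain ⟨P', hP', hst', hc⟩ := hst.typeA hzA hzB
    have hcA : (insert z A).card = A.card + 1 := card_insert_of_notMem hzA
    rcases hP'.eq_or_ssubset with heq | hss
    · rw [← heq] at hst'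
      exact ih (insert z A) B kU kD hst' (by omega) h4 (by omega)
    · refine ⟨P', Or.inl ⟨insert z A, B, kU, kD, hst', by omega, h4⟩, hP', card_lt_card hss, ?_⟩
      omega

/-- A good position with an undirected edge can be extended by at most `b` arcs. -/
theorem good_ext (h : Good b P) (hP : undirected P ≠ ∅) :
    ∃ P' : Position n, Good b P' ∧ P ⊆ P' ∧ P.card < P'.card ∧ P'.card ≤ P.card + b := by
  rcases h with ⟨A, B, kU, kD, hst, h3, h4⟩ | h
  · exact safe_ext hP _ A B kU kD hst h3 h4 rfl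
  · exact fnl_ext h hP

/-- The answer in a good position. -/
theorem good_step (h : Good b P) (huv : u ≠ v) (h1 : (u, v) ∉ P) (h2 : (v, u) ∉ P) :
    ∃ P' : Position n, P ⊆ P' ∧ (u, v) ∈ P' ∧ Good b P' ∧ P'.card ≤ P.card + b + 1 := by
  rcases h with ⟨A, B, kU, kD, hst, h3, h4⟩ | h
  swap
  · obtain ⟨P', hP', hm, hF, hc⟩ := fnl_step h huv h1 h2
    exact ⟨P', hP', hm, Or.inr hF, by omega⟩
  have h5 := hst.card_add
  by_cases hall : ∃ z : Fin n, z ∉ A ∧ z ∉ B
  swap
  · obtain ⟨P', hP', hm, hF, hc⟩ := fnl_step (fnl_of_all hst h3 h4 hall) huv h1 h2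
    exact ⟨P', hP', hm, Or.inr hF, by omega⟩
  obtain ⟨z, hzA, hzB⟩ := hall
  rcases hst.cases h1 h2 with ⟨hu, hv⟩ | ⟨hu, hv⟩
  · obtain ⟨P', hP', hm, hst', hc⟩ := hst.left huv hu hv h1 h2
    by_cases huA : u ∈ A
    · rw [insert_eq_self.mpr huA] at hst'
      rw [if_pos huA] at hc
      obtain ⟨P'', hP'', hst'', hc'⟩ := hst'.typeA hzA hzB
      have hcA : (insert z A).card = A.card + 1 := card_insert_of_notMem hzA
      exact ⟨P'', hP'.trans hP'', hP'' hm, Or.inl ⟨_, _, _, _, hst'', by omega, h4⟩, by omega⟩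
    · rw [if_neg huA] at hc
      have hcA : (insert u A).card = A.card + 1 := card_insert_of_notMem huA
      exact ⟨P', hP', hm, Or.inl ⟨_, _, _, _, hst', by omega, h4⟩, by omega⟩
  · obtain ⟨P', hP', hm, hst', hc⟩ := hst.right huv hu hv h1 h2
    by_cases hvB : v ∈ B
    · rw [insert_eq_self.mpr hvB] at hst'
      rw [if_pos hvB] at hc
      obtain ⟨P'', hP'', hst'', hc'⟩ := hst'.typeB hzA hzB
      have hcB : (insert z B).card = B.card + 1 := card_insert_of_notMem hzB
      exact ⟨P'', hP'.trans hP'', hP'' hm, Or.inl ⟨_, _, _, _, hst'', h3, by omega⟩, by omega⟩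
    · rw [if_neg hvB] at hc
      have hcB : (insert v B).card = B.card + 1 := card_insert_of_notMem hvB
      exact ⟨P', hP', hm, Or.inl ⟨_, _, _, _, hst', h3, by omega⟩, by omega⟩

/-! ## The first rounds -/

/-- The bookkeeping without the number of the arcs played. -/
def Bk (N i : ℕ) (P : Position n) (A B : Finset (Fin n)) (kU kD : ℕ) : Prop :=
  St P A B kU kD ∧ kU + kD ≤ i ∧ A.card ≤ N + kU ∧ B.card ≤ N + kD ∧
    2 * P.card ≤ 2 * (A.card * B.card) + kU * (kU + 1) + kD * (kD + 1)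

/-- The position after `j` rounds. -/
def Pre (b N j : ℕ) (P : Position n) : Prop :=
  ∃ A B kU kD, Bk N j P A B kU kD ∧ 2 * (j * (b + 1)) ≤ 2 * P.card + 2 * (j * N) + j * (j + 1)

theorem pre_zero : Pre b N 0 (∅ : Position n) :=
  ⟨∅, ∅, 0, 0, ⟨st_empty, by simp, by simp, by simp, by simp⟩, by simp⟩

theorem pre_bound {j : ℕ} (h : Pre b N j P) : j * b ≤ N * N + 2 * (N * j) + j * j := by
  obtain ⟨A, B, kU, kD, ⟨-, hk, hA, hB, hup⟩, hlow⟩ := h
  have h1 : A.card * B.card ≤ (N + kU) * (N + kD) := Nat.mul_le_mul hA hB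
  have h2 : (kU + kD) * (kU + kD) ≤ j * j := Nat.mul_le_mul hk hk
  have h3 : N * (kU + kD) ≤ N * j := Nat.mul_le_mul_left _ hk
  nlinarith

/-- The typing loop. -/
theorem loop (hn : n = b + N) {j T : ℕ} (hj : N + j < b) : ∀ (μ : ℕ) (P : Position n)
    (A B : Finset (Fin n)) (kU kD : ℕ), Bk N (j + 1) P A B kU kD → P.card ≤ T →
    (N + kU - A.card) + (N + kD - B.card) = μ →
    ∃ P' : Position n, P ⊆ P' ∧ P'.card ≤ T ∧ (Safe b P' ∨
      ((∃ A B kU kD, Bk N (j + 1) P' A B kU kD) ∧ T < P'.card + (N + (j + 1)))) := by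
  intro μ
  induction μ with
  | zero =>
    intro P A B kU kD hbk hT hμ
    obtain ⟨hst, hk, hA, hB, hup⟩ := hbk
    exact ⟨P, Subset.refl _, hT, Or.inl ⟨A, B, kU, kD, hst, by omega, by omega⟩⟩
  | succ μ ih =>
    intro P A B kU kD hbk hT hμ
    have hbk' := hbk
    obtain ⟨hst, hk, hA, hB, hup⟩ := hbk
    obtain ⟨z, hzA, hzB⟩ := exists_untyped (A := A) (B := B) (by omega)
    by_cases hneed : A.card < N + kU
    · by_cases hleft : P.card + B.card ≤ T
      · obtain ⟨P', hP', hst', hc⟩ := hst.typeA hzA hzB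
        have hcA : (insert z A).card = A.card + 1 := card_insert_of_notMem hzA
        have hbk2 : Bk N (j + 1) P' (insert z A) B kU kD := by
          refine ⟨hst', hk, by omega, hB, ?_⟩
          rw [hcA, Nat.add_mul, Nat.one_mul]
          omega
        obtain ⟨P'', hP'', hT'', h⟩ := ih P' (insert z A) B kU kD hbk2 (by omega) (by omega)
        exact ⟨P'', hP'.trans hP'', hT'', h⟩
      · exact ⟨P, Subset.refl _, hT, Or.inr ⟨⟨A, B, kU, kD, hbk'⟩, by omega⟩⟩
    · by_cases hleft : P.card + A.card ≤ T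
      · obtain ⟨P', hP', hst', hc⟩ := hst.typeB hzA hzB
        have hcB : (insert z B).card = B.card + 1 := card_insert_of_notMem hzB
        have hbk2 : Bk N (j + 1) P' A (insert z B) kU kD := by
          refine ⟨hst', hk, hA, by omega, ?_⟩
          rw [hcB, Nat.mul_add, Nat.mul_one]
          omega
        obtain ⟨P'', hP'', hT'', h⟩ := ih P' A (insert z B) kU kD hbk2 (by omega) (by omega)
        exact ⟨P'', hP'.trans hP'', hT'', h⟩
      · exact ⟨P, Subset.refl _, hT, Or.inr ⟨⟨A, B, kU, kD, hbk'⟩, by omega⟩⟩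

/-- The answer in one of the first rounds. -/
theorem pre_step (hn : n = b + N) {j : ℕ} (hj : N + j < b) (h : Pre b N j P) (huv : u ≠ v)
    (h1 : (u, v) ∉ P) (h2 : (v, u) ∉ P) : ∃ P' : Position n, P ⊆ P' ∧ (u, v) ∈ P' ∧
      P'.card ≤ P.card + b + 1 ∧ (Safe b P' ∨ (Pre b N (j + 1) P' ∧ P.card + 2 ≤ P'.card)) := by
  obtain ⟨A, B, kU, kD, ⟨hst, hk, hA, hB, hup⟩, hlow⟩ := h
  -- the state after the answer to the attack
  have key : ∃ (Q : Position n) (A' B' : Finset (Fin n)) (kU' kD' : ℕ), P ⊆ Q ∧ (u, v) ∈ Q ∧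
      Bk N (j + 1) Q A' B' kU' kD' ∧ Q.card ≤ P.card + b + 1 := by
    rcases hst.cases h1 h2 with ⟨hu, hv⟩ | ⟨hu, hv⟩
    · obtain ⟨P', hP', hm, hst', hc⟩ := hst.left huv hu hv h1 h2
      by_cases huA : u ∈ A
      · rw [insert_eq_self.mpr huA] at hst'
        rw [if_pos huA] at hc
        refine ⟨P', A, B, kU + 1, kD, hP', hm, ⟨hst', by omega, by omega, hB, ?_⟩, by omega⟩
        nlinarith
      · rw [if_neg huA] at hc
        have hcA : (insert u A).card = A.card + 1 := card_insert_of_notMem huA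
        refine ⟨P', insert u A, B, kU + 1, kD, hP', hm, ⟨hst', by omega, by omega, hB, ?_⟩,
          by omega⟩
        rw [hcA]
        nlinarith
    · obtain ⟨P', hP', hm, hst', hc⟩ := hst.right huv hu hv h1 h2
      by_cases hvB : v ∈ B
      · rw [insert_eq_self.mpr hvB] at hst'
        rw [if_pos hvB] at hc
        refine ⟨P', A, B, kU, kD + 1, hP', hm, ⟨hst', by omega, hA, by omega, ?_⟩, by omega⟩
        nlinarith
      · rw [if_neg hvB] at hc
        have hcB : (insert v B).card = B.card + 1 := card_insert_of_notMem hvB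
        refine ⟨P', A, insert v B, kU, kD + 1, hP', hm, ⟨hst', by omega, hA, by omega, ?_⟩,
          by omega⟩
        rw [hcB]
        nlinarith
  obtain ⟨Q, A', B', kU', kD', hPQ, hm, hbk, hcQ⟩ := key
  obtain ⟨P', hQP', hT, h⟩ := loop hn hj _ Q A' B' kU' kD' hbk hcQ rfl
  refine ⟨P', hPQ.trans hQP', hQP' hm, hT, ?_⟩
  rcases h with h | ⟨⟨A₂, B₂, kU₂, kD₂, hbk₂⟩, hT2⟩
  · exact Or.inl h
  · right
    refine ⟨⟨A₂, B₂, kU₂, kD₂, hbk₂, ?_⟩, by omega⟩
    nlinarith

/-! ## The strategy -/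

/-- The positions which OBreaker keeps. -/
def Cls (b N : ℕ) (P : Position n) : Prop := Good b P ∨ ∃ j, 2 * j + 2 * N ≤ b ∧ Pre b N j P

theorem cls_st (h : Cls b N P) : ∃ A B kU kD, St P A B kU kD := by
  rcases h with (⟨A, B, kU, kD, h, -⟩ | ⟨A, B, kU, kD, h, -⟩) | ⟨j, -, A, B, kU, kD, ⟨h, -⟩, -⟩
  · exact ⟨A, B, kU, kD, h⟩
  · exact ⟨A, B, kU, kD, h⟩
  · exact ⟨A, B, kU, kD, h⟩

/-- no directed cycle in a strict order -/
theorem St.not_cycle (h : St P A B kU kD) : ¬ HasDirectedCycle P := by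
  rintro ⟨x, hx⟩
  have h1 : ∀ y, Relation.TransGen (fun x y => (x, y) ∈ P) x y → (x, y) ∈ P := by
    intro y hy
    induction hy with
    | single h3 => exact h3
    | tail _ h3 ih => exact h.trans _ _ _ ih h3
  exact h.irr x (h1 x hx)

theorem St.legal (h : St P A B kU kD) : Legal P := by
  intro x y hxy
  refine ⟨?_, fun hyx => h.irr x (h.trans x y x hxy hyx)⟩
  rintro rfl
  exact h.irr x hxy

/-- The answer completed to a legal reply, from a good answer. -/
theorem good_answer (h1 : (u, v) ∉ P) {P' : Position n} (hP' : P ⊆ P') (hm : (u, v) ∈ P')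
    (hc : P'.card ≤ P.card + b + 1) (hG : Good b P') :
    ∃ P' : Position n, P ⊆ P' ∧ (u, v) ∈ P' ∧ P'.card ≤ P.card + b + 1 ∧ Good b P' ∧
      (undirected (insert (u, v) P) ≠ ∅ → P.card + 2 ≤ P'.card) := by
  have hsub : insert (u, v) P ⊆ P' := insert_subset hm hP'
  have hci : (insert (u, v) P).card = P.card + 1 := card_insert_of_notMem h1
  by_cases heq : insert (u, v) P = P'
  · by_cases hund : undirected (insert (u, v) P) = ∅
    · exact ⟨P', hP', hm, hc, hG, fun h => absurd hund h⟩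
    · rw [heq] at hund
      obtain ⟨P'', hG'', hP'', hlt, hle⟩ := good_ext hG hund
      rw [← heq, hci] at hlt hle
      exact ⟨P'', hP'.trans hP'', hP'' hm, by omega, hG'', fun _ => by omega⟩
  · have hlt := card_lt_card (lt_of_le_of_ne hsub heq)
    exact ⟨P', hP', hm, hc, hG, fun _ => by omega⟩

theorem cls_step (hn : n = b + N) (hN : 1 ≤ N) (hb : 4 * N + 1 ≤ b) (h : Cls b N P)
    (huv : u ≠ v) (h1 : (u, v) ∉ P) (h2 : (v, u) ∉ P) :
    ∃ P' : Position n, P ⊆ P' ∧ (u, v) ∈ P' ∧ P'.card ≤ P.card + b + 1 ∧ Cls b N P' ∧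
      (undirected (insert (u, v) P) ≠ ∅ → P.card + 2 ≤ P'.card) := by
  rcases h with h | ⟨j, hj, hpre⟩
  · obtain ⟨P', hP', hm, hG, hc⟩ := good_step h huv h1 h2
    obtain ⟨P'', g1, g2, g3, g4, g5⟩ := good_answer h1 hP' hm hc hG
    exact ⟨P'', g1, g2, g3, Or.inl g4, g5⟩
  · have hbound := pre_bound hpre
    have hj2 : 2 * (j + 1) + 2 * N ≤ b := by
      by_contra hcon
      obtain ⟨m, rfl⟩ : ∃ m, b = 2 * N + m := ⟨b - 2 * N, by omega⟩
      have hjN : N ≤ j := by omega
      obtain ⟨i, rfl⟩ : ∃ i, m = j + i := ⟨m - j, by omega⟩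
      have hi : N + 1 ≤ i := by omega
      have h3 : N * (N + 1) ≤ j * i := Nat.mul_le_mul hjN hi
      nlinarith
    obtain ⟨P', hP', hm, hc, h⟩ := pre_step hn (by omega) hpre huv h1 h2
    rcases h with h | ⟨h, hc2⟩
    · obtain ⟨P'', g1, g2, g3, g4, g5⟩ := good_answer h1 hP' hm hc (Or.inl h)
      exact ⟨P'', g1, g2, g3, Or.inl g4, g5⟩
    · exact ⟨P', hP', hm, hc, Or.inr ⟨j + 1, hj2, h⟩, fun _ => hc2⟩

/-- A class of positions in which OBreaker can stay is lost for OMaker. -/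
theorem not_wins_of_class (C : Position n → Prop)
    (hC : ∀ P, C P → ∃ A B kU kD, St P A B kU kD)
    (hstep : ∀ (P : Position n) (u v : Fin n), C P → u ≠ v → (u, v) ∉ P → (v, u) ∉ P →
      ∃ P' : Position n, P ⊆ P' ∧ (u, v) ∈ P' ∧ P'.card ≤ P.card + b + 1 ∧ C P' ∧
        (undirected (insert (u, v) P) ≠ ∅ → P.card + 2 ≤ P'.card))
    (hw : OMakerWins (monotoneRule b) P) : ¬ C P := by
  induction hw with
  | finished P hP hc =>
    intro h
    obtain ⟨A, B, kU, kD, hst⟩ := hC P h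
    exact hst.not_cycle hc
  | play P u v huv h1 h2 hfull hreply ih =>
    intro h
    obtain ⟨P', hP', hm, hc, hcls, hext⟩ := hstep P u v h huv h1 h2
    have hsub : insert (u, v) P ⊆ P' := insert_subset hm hP'
    have hci : (insert (u, v) P).card = P.card + 1 := card_insert_of_notMem h1
    obtain ⟨A, B, kU, kD, hst⟩ := hC P' hcls
    by_cases hund : undirected (insert (u, v) P) = ∅
    · exact hst.not_cycle ((hfull hund).mono hsub)
    · refine ih hund P' ⟨hst.legal, hsub, ?_⟩ hcls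
      have h3 := hext hund
      rw [card_sdiff_of_subset hsub]
      constructor <;> omega

/-- OBreaker wins the monotone game if `b ≥ (4 n + 1) / 5`. -/
theorem breaker_monotone (n b : ℕ) (hb : 4 * n + 1 ≤ 5 * b) :
    ¬ OMakerWins (monotoneRule b) (∅ : Position n) := by
  intro hw
  by_cases hnb : n ≤ b
  · refine not_wins_of_class (Good b) ?_ ?_ hw
      (Or.inl ⟨∅, ∅, 0, 0, st_empty, by simpa using hnb, by simpa using hnb⟩)
    · rintro P (⟨A, B, kU, kD, h, -⟩ | ⟨A, B, kU, kD, h, -⟩)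
      · exact ⟨A, B, kU, kD, h⟩
      · exact ⟨A, B, kU, kD, h⟩
    · intro P u v h huv h1 h2
      obtain ⟨P', hP', hm, hG, hc⟩ := good_step h huv h1 h2
      exact good_answer h1 hP' hm hc hG
  · have hn : n = b + (n - b) := by omega
    refine not_wins_of_class (Cls b (n - b)) (fun P h => cls_st h) ?_ hw
      (Or.inr ⟨0, by omega, pre_zero⟩)
    intro P u v h huv h1 h2
    exact cls_step hn (by omega) (by omega) h huv h1 h2

end Pool.Agent.Helper15_OCG
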